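import Pool.Agent.helper67.TPE.Spec

/-! Row tpe:RNK (helper28): the rank of a unitriangular matrix. -/

set_option autoImplicit false

noncomputable section

namespace Pool.Agent.TPE

open Finset Pool.Agent.EP Pool.Agent.PQ

theorem RNK : RNK_stmt := by
  classical
  intro S _ T g U V G H hS hT h
  set N : Matrix (Fin T) (Fin T) (ZMod 2) := Matrix.of fun x y => G (U x) y + H x (V y) with hN
  have : Fact (Nat.Prime 2) := ⟨Nat.prime_two⟩
  have hdet : N.det = 1 := by
    rw [Matrix.det_of_isUpperTriangular]
    · exact Finset.prod_eq_one fun x _ => (h x x).1 rfl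
    · intro x y hxy
      exact (h x y).2 hxy
  have hrk : N.rank = T := by
    rw [Matrix.rank_of_isUnit _ ((Matrix.isUnit_iff_isUnit_det _).2 (by rw [hdet]; exact isUnit_one)), Fintype.card_fin]
  set P₁ : Matrix (Fin T) S (ZMod 2) := Matrix.of fun x s => if U x = s then 1 else 0
  set P₂ : Matrix S (Fin T) (ZMod 2) := Matrix.of fun s y => if V y = s then 1 else 0
  have hsum : N = P₁ * Matrix.of G + Matrix.of H * P₂ := by
    ext x y
    rw [Matrix.add_apply, Matrix.mul_apply, Matrix.mul_apply]
    simp [hN, P₁, P₂]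
  have h1 : N = Matrix.fromCols P₁ (Matrix.of H) * Matrix.fromRows (Matrix.of G) P₂ := by
    rw [Matrix.fromCols_mul_fromRows, hsum]
  have h2 : N.rank ≤ Fintype.card (S ⊕ S) := by
    rw [h1]
    exact (Matrix.rank_mul_le_left _ _).trans (Matrix.rank_le_card_width _)
  rw [hrk, Fintype.card_sum] at h2
  omega

end Pool.Agent.TPE
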